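import Pool.Agent.E8helper16.TP.StmB

/-! Piece TRI of project TP: one factor `DD`, the other arbitrary, phases depending on the shift. -/

set_option autoImplicit false

namespace Pool.Agent.E8helper91.TP

open Finset
open Pool.Agent.H807R2.Dav (ee ee_add ee_zero norm_ee)
open Pool.Agent.E8helper66.GB (DD FF S_U3)
open Pool.Agent.E8helper16.TP

theorem conj_ee (x : ℝ) : (starRingEnd ℂ) (ee x) = ee (-x) := by
  unfold ee
  rw [← Complex.exp_conj]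
  congr 1
  simp only [map_mul, Complex.conj_ofReal, Complex.conj_I, Complex.ofReal_neg, map_ofNat]
  ring

/-- the dual function at an integer -/
noncomputable def GG (M : ℕ) (D : ℕ → ℂ) (κ : ℤ → ℂ) (θ : ℤ → ℝ) (x : ℤ) : ℂ :=
  ∑ y ∈ Icc 1 M, D y * (κ ((y : ℤ) - x) * ee (θ ((y : ℤ) - x) * x))

theorem shift_sum (t : ℤ → ℂ) (M N : ℕ) (y : ℤ) (hy : 1 ≤ y) (hy' : y ≤ M)
    (h0 : ∀ x, y - x ∉ Icc (-(N : ℤ)) N → t x = 0) :
    ∑ x ∈ Icc (-((M : ℤ) + N)) (M + N), t x = ∑ h ∈ Icc (-(N : ℤ)) N, t (y - h) := by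
  have h1 : ∑ h ∈ Icc (-(N : ℤ)) N, t (y - h) = ∑ x ∈ Icc (y - N) (y + N), t x := by
    refine Finset.sum_nbij' (fun h => y - h) (fun x => y - x) ?_ ?_ ?_ ?_ ?_
    · intro h hh
      rw [mem_Icc] at hh ⊢
      constructor <;> linarith [hh.1, hh.2]
    · intro h hh
      rw [mem_Icc] at hh ⊢
      constructor <;> linarith [hh.1, hh.2]
    · intro h _
      ring
    · intro h _
      ring
    · intro h _
      rfl
  rw [h1]
  symm
  refine Finset.sum_subset ?_ ?_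
  · intro x hx
    rw [mem_Icc] at hx ⊢
    constructor
    · have := hx.1
      have h2 : (0 : ℤ) ≤ M := by positivity
      linarith
    · linarith [hx.2]
  · intro x _ hx
    refine h0 x fun h3 => hx ?_
    rw [mem_Icc] at h3 ⊢
    constructor <;> linarith [h3.1, h3.2]

/-- the new weights -/
noncomputable def kk (κ : ℤ → ℂ) (θ : ℤ → ℝ) (h k : ℤ) : ℂ :=
  κ h * (starRingEnd ℂ) (κ (h + k)) * ee (-(θ h - θ (h + k)) * h)

theorem kk_le (κ : ℤ → ℂ) (θ : ℤ → ℝ) (hκ : ∀ k, ‖κ k‖ ≤ 1) (h k : ℤ) : ‖kk κ θ h k‖ ≤ 1 := by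
  unfold kk
  rw [norm_mul, norm_mul, norm_ee, mul_one, RCLike.norm_conj]
  exact mul_le_one₀ (hκ _) (norm_nonneg _) (hκ _)

theorem l2_eq (D : ℕ → ℂ) (hD : ∀ y, (starRingEnd ℂ) (D y) = D y) (M N : ℕ) (κ : ℤ → ℂ)
    (θ : ℤ → ℝ) (hs : ∀ k, k ∉ Icc (-(N : ℤ)) N → κ k = 0) :
    ((∑ x ∈ Icc (-((M : ℤ) + N)) (M + N), ‖GG M D κ θ x‖ ^ 2 : ℝ) : ℂ) =
      ∑ h ∈ Icc (-(N : ℤ)) N, ∑ y ∈ Icc 1 M, D y * FF M D (kk κ θ h) (fun k => θ h - θ (h + k)) y := by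
  push_cast
  have h1 : ∀ x : ℤ, ((‖GG M D κ θ x‖ : ℝ) : ℂ) ^ 2 = ∑ y ∈ Icc 1 M, ∑ y' ∈ Icc 1 M,
      (D y * (κ ((y : ℤ) - x) * ee (θ ((y : ℤ) - x) * x))) *
        (D y' * ((starRingEnd ℂ) (κ ((y' : ℤ) - x)) * ee (-(θ ((y' : ℤ) - x) * x)))) := by
    intro x
    rw [← Complex.mul_conj', GG, map_sum, Finset.sum_mul_sum]
    refine sum_congr rfl fun y _ => sum_congr rfl fun y' _ => ?_
    rw [map_mul, map_mul, hD, conj_ee]
  rw [sum_congr rfl fun x _ => h1 x, sum_comm]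
  have h2 : ∀ y ∈ Icc 1 M, ∑ x ∈ Icc (-((M : ℤ) + N)) (M + N), ∑ y' ∈ Icc 1 M,
      (D y * (κ ((y : ℤ) - x) * ee (θ ((y : ℤ) - x) * x))) *
        (D y' * ((starRingEnd ℂ) (κ ((y' : ℤ) - x)) * ee (-(θ ((y' : ℤ) - x) * x)))) =
      ∑ h ∈ Icc (-(N : ℤ)) N, D y * FF M D (kk κ θ h) (fun k => θ h - θ (h + k)) y := by
    intro y hy
    rw [mem_Icc] at hy
    rw [shift_sum _ M N (y : ℤ) (by exact_mod_cast hy.1) (by exact_mod_cast hy.2)]
    · refine sum_congr rfl fun h _ => ?_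
      unfold FF
      rw [mul_sum]
      refine sum_congr rfl fun y' _ => ?_
      have e1 : (y : ℤ) - (y - h) = h := by ring
      have e2 : (y' : ℤ) - (y - h) = h + ((y' : ℤ) - y) := by ring
      rw [e1, e2]
      unfold kk
      set k : ℤ := (y' : ℤ) - y
      have e3 : ee (θ h * ((y : ℤ) - h : ℤ)) * ee (-(θ (h + k) * ((y : ℤ) - h : ℤ))) =
          ee (-(θ h - θ (h + k)) * h) * ee ((θ h - θ (h + k)) * y) := by
        rw [← ee_add, ← ee_add]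
        congr 1
        push_cast
        ring
      linear_combination D y * D y' * κ h * (starRingEnd ℂ) (κ (h + k)) * e3
    · intro x hx
      refine sum_eq_zero fun y' _ => ?_
      rw [hs _ hx]
      ring
  rw [sum_congr rfl h2, sum_comm]

theorem l2 (D : ℕ → ℂ) (hD : ∀ y, (starRingEnd ℂ) (D y) = D y) (M N : ℕ) (κ : ℤ → ℂ)
    (θ : ℤ → ℝ) (hκ : ∀ k, ‖κ k‖ ≤ 1) (hs : ∀ k, k ∉ Icc (-(N : ℤ)) N → κ k = 0) (A : ℝ)
    (hA : ∀ (κ' : ℤ → ℂ) (θ' : ℤ → ℝ), (∀ k, ‖κ' k‖ ≤ 1) →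
      ‖∑ x ∈ Icc 1 M, D x * FF M D κ' θ' x‖ ≤ A) :
    ∑ x ∈ Icc (-((M : ℤ) + N)) (M + N), ‖GG M D κ θ x‖ ^ 2 ≤ (2 * N + 1) * A := by
  have h1 := l2_eq D hD M N κ θ hs
  have h2 : ‖((∑ x ∈ Icc (-((M : ℤ) + N)) (M + N), ‖GG M D κ θ x‖ ^ 2 : ℝ) : ℂ)‖ ≤
      (2 * N + 1) * A := by
    rw [h1]
    refine (norm_sum_le _ _).trans ((sum_le_sum fun h _ => hA (kk κ θ h) _ (kk_le κ θ hκ h)).trans ?_)
    rw [sum_const, nsmul_eq_mul, Int.card_Icc]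
    have : (((N : ℤ) + 1 - -(N : ℤ)).toNat : ℝ) = 2 * N + 1 := by
      have h3 : (N : ℤ) + 1 - -(N : ℤ) = ((2 * N + 1 : ℕ) : ℤ) := by push_cast; ring
      rw [h3, Int.toNat_natCast]
      push_cast
      ring
    rw [this]
  refine le_trans (le_trans (le_of_eq ?_) (Complex.re_le_norm _)) h2
  rw [Complex.ofReal_re]

/-- Cauchy–Schwarz for the dual function -/
theorem cs (D : ℕ → ℂ) (hD : ∀ y, (starRingEnd ℂ) (D y) = D y) (M N P : ℕ) (hP : P ≤ M + N)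
    (κ : ℤ → ℂ) (θ : ℤ → ℝ) (hκ : ∀ k, ‖κ k‖ ≤ 1) (hs : ∀ k, k ∉ Icc (-(N : ℤ)) N → κ k = 0) (A : ℝ)
    (hA : ∀ (κ' : ℤ → ℂ) (θ' : ℤ → ℝ), (∀ k, ‖κ' k‖ ≤ 1) →
      ‖∑ x ∈ Icc 1 M, D x * FF M D κ' θ' x‖ ≤ A) (F : ℕ → ℂ) (T : ℝ)
    (hF : ∀ x ∈ Icc 1 P, ‖F x‖ ≤ T) :
    ‖∑ x ∈ Icc 1 P, F x * GG M D κ θ x‖ ^ 2 ≤ P * T ^ 2 * ((2 * N + 1) * A) := by
  have h0 := l2 D hD M N κ θ hκ hs A hA
  have h1 : ∑ x ∈ Icc 1 P, ‖GG M D κ θ x‖ ^ 2 ≤ (2 * N + 1) * A := by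
    refine le_trans ?_ h0
    have h2 : ∑ x ∈ Icc 1 P, ‖GG M D κ θ x‖ ^ 2 =
        ∑ x ∈ (Icc 1 P).map Nat.castEmbedding, ‖GG M D κ θ (x : ℤ)‖ ^ 2 := by
      rw [sum_map]
      rfl
    rw [h2]
    refine sum_le_sum_of_subset_of_nonneg ?_ fun _ _ _ => by positivity
    intro x hx
    rw [mem_map] at hx
    obtain ⟨n, hn, rfl⟩ := hx
    rw [mem_Icc] at hn ⊢
    simp only [Nat.castEmbedding_apply]
    have : (0 : ℤ) ≤ n := by positivity
    have h3 : (n : ℤ) ≤ M + N := by exact_mod_cast hn.2.trans hP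
    constructor
    · have : (0 : ℤ) ≤ (M : ℤ) + N := by positivity
      linarith
    · exact h3
  have h2 : ‖∑ x ∈ Icc 1 P, F x * GG M D κ θ x‖ ≤ ∑ x ∈ Icc 1 P, ‖F x‖ * ‖GG M D κ θ x‖ := by
    refine (norm_sum_le _ _).trans (le_of_eq (sum_congr rfl fun x _ => norm_mul _ _))
  have h3 : (∑ x ∈ Icc 1 P, ‖F x‖ * ‖GG M D κ θ x‖) ^ 2 ≤
      (∑ x ∈ Icc 1 P, ‖F x‖ ^ 2) * ∑ x ∈ Icc 1 P, ‖GG M D κ θ x‖ ^ 2 :=
    sum_mul_sq_le_sq_mul_sq _ _ _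
  have h4 : ∑ x ∈ Icc 1 P, ‖F x‖ ^ 2 ≤ P * T ^ 2 := by
    refine (sum_le_sum fun x hx => pow_le_pow_left₀ (norm_nonneg _) (hF x hx) 2).trans ?_
    rw [sum_const, nsmul_eq_mul, Nat.card_Icc, Nat.add_sub_cancel]
  calc ‖∑ x ∈ Icc 1 P, F x * GG M D κ θ x‖ ^ 2
      ≤ (∑ x ∈ Icc 1 P, ‖F x‖ * ‖GG M D κ θ x‖) ^ 2 := pow_le_pow_left₀ (norm_nonneg _) h2 2
    _ ≤ _ := h3
    _ ≤ P * T ^ 2 * ((2 * N + 1) * A) := by
      refine mul_le_mul h4 h1 (sum_nonneg fun _ _ => by positivity) (by positivity)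

/-- a unimodular multiplier -/
theorem exists_kappa (T : ℂ) : ∃ c : ℂ, ‖c‖ ≤ 1 ∧ c * T = ‖T‖ := by
  by_cases h : T = 0
  · exact ⟨0, by simp, by simp [h]⟩
  · refine ⟨(starRingEnd ℂ) T / ‖T‖, ?_, ?_⟩
    · rw [norm_div, RCLike.norm_conj, Complex.norm_real, norm_norm, div_self (norm_ne_zero_iff.mpr h)]
    · have h1 : ((‖T‖ : ℝ) : ℂ) ≠ 0 := by
        exact_mod_cast norm_ne_zero_iff.mpr h
      rw [div_mul_eq_mul_div, Complex.conj_mul', div_eq_iff h1]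
      ring

theorem conj_DD (z y : ℕ) : (starRingEnd ℂ) (DD z y) = DD z y := by
  unfold DD
  exact Complex.conj_ofReal _

/-- the first sum -/
theorem first (z N : ℕ) (F : ℕ → ℂ) (θ : ℕ → ℝ) (T A : ℝ) (hF : ∀ x ∈ Icc 1 N, ‖F x‖ ≤ T)
    (hA : ∀ (κ' : ℤ → ℂ) (θ' : ℤ → ℝ), (∀ k, ‖κ' k‖ ≤ 1) →
      ‖∑ x ∈ Icc 1 (2 * N), DD z x * FF (2 * N) (DD z) κ' θ' x‖ ≤ A) :
    (∑ h ∈ Icc 1 N, ‖∑ x ∈ Icc 1 N, F x * DD z (x + h) * ee (θ h * x)‖) ^ 2 ≤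
      N * T ^ 2 * ((2 * N + 1) * A) := by
  choose c hc hcT using fun h : ℕ => exists_kappa (∑ x ∈ Icc 1 N, F x * DD z (x + h) * ee (θ h * x))
  let κ : ℤ → ℂ := fun k => if k ∈ Icc (1 : ℤ) N then c k.toNat else 0
  let θ' : ℤ → ℝ := fun k => θ k.toNat
  have hκ : ∀ k, ‖κ k‖ ≤ 1 := by
    intro k
    simp only [κ]
    split_ifs
    · exact hc _
    · simp
  have hs : ∀ k, k ∉ Icc (-(N : ℤ)) N → κ k = 0 := by
    intro k hk
    simp only [κ]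
    rw [if_neg]
    intro h
    rw [mem_Icc] at h hk
    exact hk ⟨by linarith [h.1, (by positivity : (0 : ℤ) ≤ N)], h.2⟩
  have h1 := cs (DD z) (conj_DD z) (2 * N) N N (by omega) κ θ' hκ hs A hA F T hF
  have h2 : ((∑ h ∈ Icc 1 N, ‖∑ x ∈ Icc 1 N, F x * DD z (x + h) * ee (θ h * x)‖ : ℝ) : ℂ) =
      ∑ x ∈ Icc 1 N, F x * GG (2 * N) (DD z) κ θ' x := by
    push_cast
    rw [sum_congr rfl fun h _ => (hcT h).symm]
    rw [sum_congr rfl fun h _ => mul_sum _ _ _, sum_comm]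
    refine sum_congr rfl fun x hx => ?_
    rw [mem_Icc] at hx
    unfold GG
    rw [mul_sum]
    -- reindex y = x + h
    have h3 : ∑ y ∈ Icc 1 (2 * N), F x * (DD z y * (κ ((y : ℤ) - x) * ee (θ' ((y : ℤ) - x) * ((x : ℤ) : ℝ)))) =
        ∑ y ∈ (Icc 1 N).map (addLeftEmbedding x),
          F x * (DD z y * (κ ((y : ℤ) - x) * ee (θ' ((y : ℤ) - x) * ((x : ℤ) : ℝ)))) := by
      symm
      refine sum_subset ?_ ?_
      · intro y hy
        rw [mem_map] at hy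
        obtain ⟨h, hh, rfl⟩ := hy
        rw [mem_Icc] at hh ⊢
        simp only [addLeftEmbedding_apply]
        omega
      · intro y _ hy
        have : κ ((y : ℤ) - x) = 0 := by
          simp only [κ]
          rw [if_neg]
          intro h
          rw [mem_Icc] at h
          apply hy
          rw [mem_map]
          refine ⟨y - x, ?_, ?_⟩
          · rw [mem_Icc]
            omega
          · simp only [addLeftEmbedding_apply]
            omega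
        rw [this]
        ring
    rw [h3, sum_map]
    refine sum_congr rfl fun h hh => ?_
    simp only [addLeftEmbedding_apply]
    have e1 : ((x + h : ℕ) : ℤ) - x = h := by push_cast; ring
    rw [e1]
    have e2 : κ (h : ℤ) = c h := by
      simp only [κ]
      rw [mem_Icc] at hh
      rw [if_pos (by rw [mem_Icc]; exact ⟨by exact_mod_cast hh.1, by exact_mod_cast hh.2⟩), Int.toNat_natCast]
    have e3 : θ' (h : ℤ) = θ h := by simp [θ']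
    rw [e2, e3]
    push_cast
    ring
  rw [← h2] at h1
  rw [Complex.norm_real, Real.norm_eq_abs, sq_abs] at h1
  exact h1

/-- the second sum -/
theorem second (z N : ℕ) (F : ℕ → ℂ) (θ : ℕ → ℝ) (T A : ℝ) (hF : ∀ x ∈ Icc 1 (2 * N), ‖F x‖ ≤ T)
    (hA : ∀ (κ' : ℤ → ℂ) (θ' : ℤ → ℝ), (∀ k, ‖κ' k‖ ≤ 1) →
      ‖∑ x ∈ Icc 1 N, DD z x * FF N (DD z) κ' θ' x‖ ≤ A) :
    (∑ h ∈ Icc 1 N, ‖∑ x ∈ Icc 1 N, DD z x * F (x + h) * ee (θ h * x)‖) ^ 2 ≤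
      (2 * N : ℕ) * T ^ 2 * ((2 * N + 1) * A) := by
  choose c hc hcT using fun h : ℕ => exists_kappa (∑ x ∈ Icc 1 N, DD z x * F (x + h) * ee (θ h * x))
  let κ : ℤ → ℂ := fun k => if -k ∈ Icc (1 : ℤ) N then c (-k).toNat * ee (θ (-k).toNat * k) else 0
  let θ' : ℤ → ℝ := fun k => θ (-k).toNat
  have hκ : ∀ k, ‖κ k‖ ≤ 1 := by
    intro k
    simp only [κ]
    split_ifs
    · rw [norm_mul, norm_ee, mul_one]
      exact hc _
    · simp
  have hs : ∀ k, k ∉ Icc (-(N : ℤ)) N → κ k = 0 := by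
    intro k hk
    simp only [κ]
    rw [if_neg]
    intro h
    rw [mem_Icc] at h hk
    exact hk ⟨by linarith [h.2], by linarith [h.1, (by positivity : (0 : ℤ) ≤ N)]⟩
  have h1 := cs (DD z) (conj_DD z) N N (2 * N) (by omega) κ θ' hκ hs A hA F T hF
  have h2 : ((∑ h ∈ Icc 1 N, ‖∑ x ∈ Icc 1 N, DD z x * F (x + h) * ee (θ h * x)‖ : ℝ) : ℂ) =
      ∑ y ∈ Icc 1 (2 * N), F y * GG N (DD z) κ θ' y := by
    push_cast
    rw [sum_congr rfl fun h _ => (hcT h).symm]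
    rw [sum_congr rfl fun h _ => mul_sum _ _ _, sum_comm]
    unfold GG
    rw [sum_congr rfl fun y _ => mul_sum _ _ _, sum_comm (s := Icc 1 (2 * N))]
    refine sum_congr rfl fun x hx => ?_
    rw [mem_Icc] at hx
    have h3 : ∑ y ∈ Icc 1 (2 * N), F y * (DD z x * (κ ((x : ℤ) - y) * ee (θ' ((x : ℤ) - y) * ((y : ℤ) : ℝ)))) =
        ∑ y ∈ (Icc 1 N).map (addLeftEmbedding x),
          F y * (DD z x * (κ ((x : ℤ) - y) * ee (θ' ((x : ℤ) - y) * ((y : ℤ) : ℝ)))) := by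
      symm
      refine sum_subset ?_ ?_
      · intro y hy
        rw [mem_map] at hy
        obtain ⟨h, hh, rfl⟩ := hy
        rw [mem_Icc] at hh ⊢
        simp only [addLeftEmbedding_apply]
        omega
      · intro y _ hy
        have : κ ((x : ℤ) - y) = 0 := by
          simp only [κ]
          rw [if_neg]
          intro h
          rw [mem_Icc] at h
          apply hy
          rw [mem_map]
          refine ⟨y - x, ?_, ?_⟩
          · rw [mem_Icc]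
            omega
          · simp only [addLeftEmbedding_apply]
            omega
        rw [this]
        ring
    rw [h3, sum_map]
    refine sum_congr rfl fun h hh => ?_
    simp only [addLeftEmbedding_apply]
    have e1 : (x : ℤ) - ((x + h : ℕ) : ℤ) = -(h : ℤ) := by push_cast; ring
    rw [e1]
    have e2 : κ (-(h : ℤ)) = c h * ee (θ h * (-(h : ℝ))) := by
      simp only [κ]
      rw [mem_Icc] at hh
      rw [neg_neg, if_pos (by rw [mem_Icc]; exact ⟨by exact_mod_cast hh.1, by exact_mod_cast hh.2⟩),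
        Int.toNat_natCast]
      push_cast
      rfl
    have e3 : θ' (-(h : ℤ)) = θ h := by simp [θ']
    rw [e2, e3]
    have e4 : ee (θ h * (-(h : ℝ))) * ee (θ h * (((x + h : ℕ) : ℤ) : ℝ)) = ee (θ h * x) := by
      rw [← ee_add]
      congr 1
      push_cast
      ring
    linear_combination (-(F (x + h) * DD z x * c h)) * e4
  rw [← h2] at h1
  rw [Complex.norm_real, Real.norm_eq_abs, sq_abs] at h1
  exact h1

theorem fin_aux (S N L A c : ℝ) (U : ℕ) (hN : 1 ≤ N) (hL : 4 ≤ L) (hA : A ≤ 4 * N ^ 2 / L ^ (2 * U + 6))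
    (hc : c * A ≤ 4 * (N * N ^ 2) / L ^ (2 * U + 6)) (hc0 : 0 ≤ c)
    (hS : S ^ 2 ≤ c * (L ^ 2) ^ 2 * ((2 * N + 1) * A)) : S ≤ N ^ 2 / L ^ U := by
  have hL0 : 0 < L := by linarith
  refine (le_abs_self S).trans (abs_le_of_sq_le_sq ?_ (by positivity))
  have h1 : c * (L ^ 2) ^ 2 * ((2 * N + 1) * A) = (L ^ 4 * (2 * N + 1)) * (c * A) := by ring
  rw [h1] at hS
  have h2 : (L ^ 4 * (2 * N + 1)) * (c * A) ≤
      (L ^ 4 * (3 * N)) * (4 * (N * N ^ 2) / L ^ (2 * U + 6)) := by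
    refine (mul_le_mul_of_nonneg_left hc (by positivity)).trans ?_
    refine mul_le_mul_of_nonneg_right ?_ (by positivity)
    refine mul_le_mul_of_nonneg_left (by linarith) (by positivity)
  refine hS.trans (h2.trans ?_)
  have h3 : (N ^ 2 / L ^ U) ^ 2 = N ^ 4 * L ^ 6 / L ^ (2 * U + 6) := by
    rw [pow_add, pow_mul' L 2 U]
    field_simp
  rw [h3]
  have h4 : (L ^ 4 * (3 * N)) * (4 * (N * N ^ 2) / L ^ (2 * U + 6)) =
      (12 * (N ^ 4 * L ^ 4)) / L ^ (2 * U + 6) := by ring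
  rw [h4]
  refine div_le_div_of_nonneg_right ?_ (by positivity)
  have h5 : (12 : ℝ) ≤ L ^ 2 := by nlinarith
  have h6 : N ^ 4 * L ^ 6 = L ^ 2 * (N ^ 4 * L ^ 4) := by ring
  rw [h6]
  exact mul_le_mul_of_nonneg_right h5 (by positivity)

theorem t_TRI (h : S_U3) : S_TRI := by
  intro U
  obtain ⟨B, hB⟩ := h (2 * U + 6)
  refine ⟨B + 1, fun K => ?_⟩
  obtain ⟨N₁, hN₁⟩ := hB K
  obtain ⟨N₂, hN₂⟩ : ∃ N₂ : ℕ, ∀ N ≥ N₂, max 4 ((2 : ℝ) ^ B) ≤ Real.log N := by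
    have := (Real.tendsto_log_atTop.comp tendsto_natCast_atTop_atTop).eventually_ge_atTop
      (max 4 ((2 : ℝ) ^ B))
    obtain ⟨n, hn⟩ := Filter.eventually_atTop.mp this
    exact ⟨n, fun N hN => hn N hN⟩
  refine ⟨max N₁ (max N₂ 1), fun N hN z hz1 hz2 F θ hF => ?_⟩
  have hNN₁ : N₁ ≤ N := le_trans (le_max_left _ _) hN
  have hNN₂ : N₂ ≤ N := le_trans ((le_max_left _ _).trans (le_max_right _ _)) hN
  have hN1 : 1 ≤ N := le_trans ((le_max_right _ _).trans (le_max_right _ _)) hN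
  have hN1' : (1 : ℝ) ≤ N := by exact_mod_cast hN1
  set L : ℝ := Real.log N with hLdef
  have hL4 : 4 ≤ L := (le_max_left _ _).trans (hN₂ N hNN₂)
  have hLB : (2 : ℝ) ^ B ≤ L := (le_max_right _ _).trans (hN₂ N hNN₂)
  have hL0 : 0 < L := by linarith
  have hB1 : L ^ B ≤ z := (pow_le_pow_right₀ (by linarith) (Nat.le_succ B)).trans hz1
  have hlog2 : Real.log ((2 * N : ℕ) : ℝ) = Real.log 2 + L := by
    push_cast
    rw [Real.log_mul (by norm_num) (by positivity)]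
  have hl1 : Real.log ((2 * N : ℕ) : ℝ) ≤ 2 * L := by
    rw [hlog2]
    have : Real.log 2 ≤ 1 := by
      have := Real.log_two_lt_d9
      linarith
    linarith
  have hl2 : L ≤ Real.log ((2 * N : ℕ) : ℝ) := by
    rw [hlog2]
    have : 0 ≤ Real.log 2 := Real.log_nonneg (by norm_num)
    linarith
  have hB2 : Real.log ((2 * N : ℕ) : ℝ) ^ B ≤ z := by
    refine le_trans ?_ hz1
    calc Real.log ((2 * N : ℕ) : ℝ) ^ B ≤ (2 * L) ^ B :=
          pow_le_pow_left₀ (by linarith) hl1 B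
      _ = 2 ^ B * L ^ B := mul_pow _ _ _
      _ ≤ L * L ^ B := mul_le_mul_of_nonneg_right hLB (by positivity)
      _ = L ^ (B + 1) := by ring
  have hK2 : (z : ℝ) ≤ Real.log ((2 * N : ℕ) : ℝ) ^ K :=
    hz2.trans (pow_le_pow_left₀ hL0.le hl2 K)
  have hAN : ∀ (κ' : ℤ → ℂ) (θ' : ℤ → ℝ), (∀ k, ‖κ' k‖ ≤ 1) →
      ‖∑ x ∈ Icc 1 N, DD z x * FF N (DD z) κ' θ' x‖ ≤ (N : ℝ) ^ 2 / L ^ (2 * U + 6) :=
    fun κ' θ' hκ' => hN₁ N hNN₁ z hB1 hz2 κ' θ' hκ'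
  have hA2N : ∀ (κ' : ℤ → ℂ) (θ' : ℤ → ℝ), (∀ k, ‖κ' k‖ ≤ 1) →
      ‖∑ x ∈ Icc 1 (2 * N), DD z x * FF (2 * N) (DD z) κ' θ' x‖ ≤
        4 * (N : ℝ) ^ 2 / L ^ (2 * U + 6) := by
    intro κ' θ' hκ'
    refine (hN₁ (2 * N) (by omega) z hB2 hK2 κ' θ' hκ').trans ?_
    have : (((2 * N : ℕ) : ℝ)) ^ 2 = 4 * (N : ℝ) ^ 2 := by push_cast; ring
    rw [this]
    refine div_le_div_of_nonneg_left (by positivity) (by positivity)
      (pow_le_pow_left₀ hL0.le hl2 _)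
  have hsub : Icc 1 N ⊆ Icc 1 (2 * N) := Icc_subset_Icc le_rfl (by omega)
  constructor
  · refine fin_aux _ N L (4 * (N : ℝ) ^ 2 / L ^ (2 * U + 6)) N U hN1' hL4 le_rfl (le_of_eq ?_)
      (by positivity) (first z N F θ _ _ (fun x hx => hF x (hsub hx)) hA2N)
    ring
  · refine fin_aux _ N L ((N : ℝ) ^ 2 / L ^ (2 * U + 6)) ((2 * N : ℕ) : ℝ) U hN1' hL4 ?_ ?_
      (by positivity) (second z N F θ _ _ hF hAN)
    · refine div_le_div_of_nonneg_right ?_ (by positivity)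
      nlinarith [sq_nonneg (N : ℝ)]
    · have e : ((2 * N : ℕ) : ℝ) * ((N : ℝ) ^ 2 / L ^ (2 * U + 6)) =
          2 * (N * (N : ℝ) ^ 2) / L ^ (2 * U + 6) := by push_cast; ring
      rw [e]
      refine div_le_div_of_nonneg_right ?_ (by positivity)
      have : 0 ≤ (N : ℝ) * (N : ℝ) ^ 2 := by positivity
      linarith

end Pool.Agent.E8helper91.TP
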